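import Pool.Agent.Lib.MP_4a7d3d_co.FB.Final

/-!
# MP_4a7d3d_co: the (f, beta)-vectors of flag complexes are (f, beta)-vectors of balanced complexes

For every field `k` and every finite flag complex there is a balanced complex with the same face
numbers and the same reduced Betti numbers over `k` in all dimensions. This answers Q1 and Q2: no
flag complex as asked for there exists. (Faces are indexed by their number `s` of vertices, the
dimension is `s - 1`.)
-/

set_option autoImplicit false

theorem Pool.Agent.Results.MP_4a7d3d_co.FlagBalanced.result (k : Type*) [Field k] {V : Type*}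
    [LinearOrder V] (Δ : FlagB.Cplx V) (hflag : Δ.IsFlag) :
    ∃ Γ : FlagB.Cplx ℕ, Γ.IsBalanced ∧ (∀ s, Γ.fnum s = Δ.fnum s) ∧
      (∀ s, Γ.betti k s = Δ.betti k s) :=
  FlagB.main_theorem k Δ hflag
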